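import Mathlib
import Pool.Agent.Lib_helper35.EIP.Defs
import Pool.Agent.Lib_helper35.EIP.Glue

/-!
# Countable models of `IΔ₀` that are not polynomially bounded are exponential integer parts

The definitions `IsModelIDelta0`, `PolynomiallyBounded`, `IsBaseTwoExponential` and
`IsIntegerPart` are in `Pool/Agent/Lib_helper35/EIP/Defs.lean`.
-/

set_option autoImplicit false

namespace Pool.Agent.Results.MP_22b28a_lc.CountableIDelta0

open Pool.Agent.Lib_helper35.EIP

universe u

/-- The ordered semiring `M` is an exponential integer part of some real-closed exponential
field: there are a real closed ordered field `R`, a base-2 exponential `e` on `R`, an integer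
part `Z` of `R` closed under `e` on its positive elements, and a strictly increasing semiring
homomorphism `f` from `M` to `R` such that `Z` consists of the elements `f m` and `-f m`
(so `Z` is isomorphic to the ordered ring obtained from `M` by adjoining negatives). -/
def IsExponentialIntegerPartOfRCEF (M : Type u) [CommSemiring M] [LinearOrder M] : Prop :=
  ∃ (R : Type u) (_ : Field R) (_ : LinearOrder R) (_ : IsStrictOrderedRing R)
    (_ : IsRealClosed R) (e : R → R) (Z : Subring R),
    IsBaseTwoExponential e ∧ IsIntegerPart Z ∧ (∀ z ∈ Z, 0 < z → e z ∈ Z) ∧
    ∃ f : M →+* R, StrictMono f ∧ ∀ r : R, r ∈ Z ↔ ∃ m : M, r = f m ∨ r = -f m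

/-- Every countable model of `IΔ₀` that is not polynomially bounded is an exponential integer
part of a real-closed exponential field. -/
theorem result (M : Type u) [CommSemiring M] [LinearOrder M] [IsStrictOrderedRing M]
    [Countable M] (hM : IsModelIDelta0 M) (hpb : ¬ PolynomiallyBounded M) :
    IsExponentialIntegerPartOfRCEF M :=
  main_M hM hpb

end Pool.Agent.Results.MP_22b28a_lc.CountableIDelta0
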